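import Pool.Agent.NBT.StmtsC

/-!
# NBT squad, row SCU: the vertices in `Up` do not move
-/

set_option autoImplicit false

open Matrix Filter Topology

namespace Pool.Agent.NBT.H94

open Pool.Agent.PFS Pool.Agent.PFJ Pool.Agent.NBT

theorem scu (hTBF : TbfStmt) (hPJE : PjeStmt) (hNRF : NrfStmt) : ScuStmt := by
  intro n C Γ Γ₀ K T c h I Up hCmp
  obtain ⟨εU, hεU, hU⟩ := hCmp.rigU
  obtain ⟨εI, hεI, hI⟩ := hCmp.rigI
  refine ⟨min εU εI, lt_min hεU hεI, ?_⟩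
  intro S W W' hUp hS hN
  obtain ⟨hN1, -⟩ := hNRF n C Γ K h.cc
  have hsum : ∑ i, W i ∈ closure C := subset_closure (by
    have := (h.pes W hS.tw).1.pos (fun _ => 1) (fun _ => one_pos)
    simpa using this)
  have hNU : Nr C εU W W' := hN1 _ _ _ _ (min_le_left _ _) hsum hN
  have hNI : Nr C εI W W' := hN1 _ _ _ _ (min_le_right _ _) hsum hN
  have eU := hU W W' hS.tw hS.tw' hNU
  have eI := hI W W' hS.tw hS.tw' hNI
  obtain ⟨_, _, _, _, hmono, _, _⟩ := hTBF n C Γ Γ₀ K T c h W hS.tw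
  obtain ⟨_, _, _, _, _, hmem', _⟩ := hTBF n C Γ Γ₀ K T c h W' hS.tw'
  constructor
  · intro u hu
    obtain ⟨p, hp⟩ := hPJE n C Γ Γ₀ K T c h W hS.tw S
    have h1 : W' u ∈ BI C W' Up := (hmem' u Up).2 hu
    rw [← eU] at h1
    have h2 : W' u ∈ BI C W S := hmono Up S hUp h1
    rw [← hp.idB _ h2]
    exact hS.prj u (hUp hu) p hp
  · intro m hm
    rw [eI]
    exact (hmem' m (I ∪ Up)).2 (Finset.mem_union_left _ hm)

end Pool.Agent.NBT.H94
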